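import Pool.Agent.Lib.MP_88baa4_lc.H96Bound

open Pool.Agent.Lib.MP_88baa4_lc

/-- Q1, negative answer in a stronger form: no countable families of word functions, the inner one
chosen after the input and the outer one chosen after the solution of the Cantor-Bendixson
problem, produce even a pointwise upper bound of a point of every nonempty closed set. -/
theorem Pool.Agent.Results.MP_88baa4_lc.BoundNotLeCB.result :
    ¬ ∃ φ ψ : ℕ → List ℕ → List ℕ, ∀ p A, repClosed p A → A.Nonempty →
      ∃ i p' B, Computes (φ i) p p' ∧ repClosed p' B ∧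
        ∀ q w, repProd repClosed repScList q w → w ∈ cantorBendixson B →
          ∃ j h, Computes (ψ j) (interleave p q) h ∧ ∃ x ∈ A, ∀ n, x n ≤ h n :=
  fun ⟨φ, ψ, h⟩ => not_bound_cb φ ψ h

/-- The case of constant families and `h = x`: closed choice on Baire space does not reduce to the
Cantor-Bendixson problem. -/
theorem Pool.Agent.Results.MP_88baa4_lc.BoundNotLeCB.choice_not_reduces :
    ¬ ∃ φ ψ : List ℕ → List ℕ,
      Reduces repClosed repBaire choiceBaire
        repClosed (repProd repClosed repScList) cantorBendixson φ ψ := by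
  rintro ⟨φ, ψ, h⟩
  refine Pool.Agent.Results.MP_88baa4_lc.BoundNotLeCB.result
    ⟨fun _ => φ, fun _ => ψ, fun p A hA hne => ?_⟩
  obtain ⟨p', B, h1, h2, -, h3⟩ := h p A hA hne
  refine ⟨0, p', B, h1, h2, fun q w hq hw => ?_⟩
  obtain ⟨r, y, h4, rfl, h5⟩ := h3 q w hq hw
  exact ⟨0, r, h4, r, h5, fun _ => le_rfl⟩
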