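import Pool.Agent.Lib.MP_88baa4_lc.Main

open Pool.Agent.Lib.MP_88baa4_lc

/-- Q2, negative answer: closed choice on Baire space does not reduce to listing the scattered
part with its cardinality code, through any pair of word functions, computable or not. -/
theorem Pool.Agent.Results.MP_88baa4_lc.ChoiceNotLeScList.result :
    ¬ ∃ φ ψ : List ℕ → List ℕ,
      Reduces repClosed repBaire choiceBaire repClosed repScList scList φ ψ :=
  fun ⟨φ, ψ, h⟩ => not_reduces_scList φ ψ h
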